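import Pool.Agent.W_448ut_h16.UtC
import Pool.Agent.W_448w4_h10.NA

/-!
# The truncated product (MP_448cb3_co, case B)

`Wn N w f`: every monomial of `f` of energy at most `N` has weight at least `w`. `trN N f`: the part of
`f` of energy at most `N`. `FS i C`: the polynomial of slope two of the part `C` up to the order six.
`trunc_prod`: if every component has grade at least `0` and every cross series has grade at least `1`
up to the energy `12`, then the product of the polynomials `FS` is `1` modulo `t ^ 7`.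
-/

namespace Pool.Agent.GaussPoset.Win.Tp

set_option linter.unusedSectionVars false

open Finset I2 Ut

universe u

/-- every monomial of energy at most `N` has weight at least `w` -/
def Wn (N w : ℕ) (f : PowerSeries A) : Prop :=
  ∀ n m, n ≤ N → n + 2 * m < w → PowerSeries.coeff m (PowerSeries.coeff n f : A) = 0

/-- the part of energy at most `N` -/
noncomputable def trN (N : ℕ) (f : PowerSeries A) : PowerSeries A :=
  PowerSeries.mk fun n => if n ≤ N then PowerSeries.coeff n f else 0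

lemma coeff_trN (N n : ℕ) (f : PowerSeries A) :
    PowerSeries.coeff n (trN N f) = if n ≤ N then PowerSeries.coeff n f else 0 := by
  unfold trN
  rw [PowerSeries.coeff_mk]

/-- equal up to the energy `N` -/
def Eqn (N : ℕ) (f g : PowerSeries A) : Prop :=
  ∀ n, n ≤ N → PowerSeries.coeff n f = PowerSeries.coeff n g

lemma Eqn.refl (N : ℕ) (f : PowerSeries A) : Eqn N f f := fun _ _ => rfl

lemma Eqn.symm {N : ℕ} {f g : PowerSeries A} (h : Eqn N f g) : Eqn N g f :=
  fun n hn => (h n hn).symm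

lemma Eqn.trans {N : ℕ} {f g k : PowerSeries A} (h : Eqn N f g) (h' : Eqn N g k) : Eqn N f k :=
  fun n hn => (h n hn).trans (h' n hn)

lemma Eqn.mul {N : ℕ} {f f' g g' : PowerSeries A} (h : Eqn N f f') (h' : Eqn N g g') :
    Eqn N (f * g) (f' * g') := by
  intro n hn
  rw [PowerSeries.coeff_mul, PowerSeries.coeff_mul]
  refine Finset.sum_congr rfl fun p hp => ?_
  rw [HasAntidiagonal.mem_antidiagonal] at hp
  rw [h p.1 (by omega), h' p.2 (by omega)]

lemma Eqn.add {N : ℕ} {f f' g g' : PowerSeries A} (h : Eqn N f f') (h' : Eqn N g g') :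
    Eqn N (f + g) (f' + g') := by
  intro n hn
  rw [map_add, map_add, h n hn, h' n hn]

lemma Eqn.prod {ι : Type*} {N : ℕ} (s : Finset ι) {f g : ι → PowerSeries A}
    (h : ∀ a ∈ s, Eqn N (f a) (g a)) : Eqn N (∏ a ∈ s, f a) (∏ a ∈ s, g a) := by
  classical
  induction s using Finset.induction_on with
  | empty => exact Eqn.refl N _
  | insert a s ha ih =>
    rw [prod_insert ha, prod_insert ha]
    exact (h a (mem_insert_self _ _)).mul (ih fun x hx => h x (mem_insert_of_mem hx))

lemma Eqn.sum {ι : Type*} {N : ℕ} (s : Finset ι) {f g : ι → PowerSeries A}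
    (h : ∀ a ∈ s, Eqn N (f a) (g a)) : Eqn N (∑ a ∈ s, f a) (∑ a ∈ s, g a) := by
  classical
  induction s using Finset.induction_on with
  | empty => exact Eqn.refl N _
  | insert a s ha ih =>
    rw [sum_insert ha, sum_insert ha]
    exact (h a (mem_insert_self _ _)).add (ih fun x hx => h x (mem_insert_of_mem hx))

lemma Eqn_trN (N : ℕ) (f : PowerSeries A) : Eqn N f (trN N f) := by
  intro n hn
  rw [coeff_trN, if_pos hn]

lemma Wn.wg {N w : ℕ} {f : PowerSeries A} (h : Wn N w f) : Wg w (trN N f) := by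
  intro n m hnm
  rw [coeff_trN]
  split_ifs with hn
  · exact h n m hn hnm
  · exact map_zero _

lemma natDegree_Gf (b : ℕ) (f : PowerSeries A) : (Gf (2 * b) f).natDegree ≤ b := by
  rw [Polynomial.natDegree_le_iff_coeff_eq_zero]
  intro m hm
  rw [coeff_Gf, if_neg (by omega)]

/-- reflection of a product -/
lemma reflect_prod {ι : Type*} (s : Finset ι) (b : ι → ℕ) (f : ι → Polynomial ℤ)
    (h : ∀ a ∈ s, (f a).natDegree ≤ b a) :
    (∏ a ∈ s, f a).natDegree ≤ ∑ a ∈ s, b a ∧
      Polynomial.reflect (∑ a ∈ s, b a) (∏ a ∈ s, f a) =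
        ∏ a ∈ s, Polynomial.reflect (b a) (f a) := by
  classical
  induction s using Finset.induction_on with
  | empty =>
    refine ⟨by simp, ?_⟩
    rw [sum_empty, prod_empty, prod_empty, ← Polynomial.C_1, Polynomial.reflect_C, pow_zero,
      mul_one]
  | insert a s ha ih =>
    obtain ⟨i1, i2⟩ := ih fun x hx => h x (mem_insert_of_mem hx)
    have h1 := h a (mem_insert_self _ _)
    rw [sum_insert ha, prod_insert ha, prod_insert ha]
    refine ⟨(Polynomial.natDegree_mul_le).trans (Nat.add_le_add h1 i1), ?_⟩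
    rw [Polynomial.reflect_mul _ _ h1 i1, i2]

/-- the truncated product argument -/
theorem trunc_arg {ι : Type*} [DecidableEq ι] (N : ℕ) (s : Finset ι) (b : ι → ℕ)
    (V : ι → PowerSeries A) (X : Finset ι → PowerSeries A) (T : PowerSeries A)
    (h1 : ∀ a ∈ s, Wn N (2 * b a) (V a))
    (hX : ∀ S, S ⊆ s → S.Nonempty → Wn N (2 * ∑ a ∈ S, b a + 1) (X S))
    (hT0 : Gf (2 * ∑ a ∈ s, b a) T = Polynomial.X ^ ∑ a ∈ s, b a)
    (hsum : T = ∏ a ∈ s, V a + ∑ S ∈ s.powerset.erase ∅, X S * ∏ a ∈ s \ S, V a) :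
    ∀ k, 1 ≤ k → 2 * k ≤ N →
      (∏ a ∈ s, Polynomial.reflect (b a) (Gf (2 * b a) (trN N (V a)))).coeff k = 0 := by
  classical
  intro k hk hkN
  set B := ∑ a ∈ s, b a with hB
  have hprod := Wg_prod s (fun a => 2 * b a) (fun a => trN N (V a)) fun a ha => (h1 a ha).wg
  have hBs : ∑ a ∈ s, 2 * b a = 2 * B := by rw [hB, Finset.mul_sum]
  simp only [hBs] at hprod
  obtain ⟨r1, r2⟩ := reflect_prod s b (fun a => Gf (2 * b a) (trN N (V a)))
    fun a _ => natDegree_Gf (b a) _
  rw [← r2, ← hB, Polynomial.coeff_reflect]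
  rcases Nat.lt_or_ge B k with hBk | hBk
  · rw [Polynomial.revAt_eq_self_of_lt hBk]
    exact Polynomial.coeff_eq_zero_of_natDegree_lt (lt_of_le_of_lt r1 hBk)
  rw [Polynomial.revAt_le hBk, ← hprod.2]
  -- the truncated identity
  have hE : Eqn N T (∏ a ∈ s, trN N (V a) +
      ∑ S ∈ s.powerset.erase ∅, trN N (X S) * ∏ a ∈ s \ S, trN N (V a)) := by
    rw [hsum]
    refine (Eqn.prod s fun a _ => Eqn_trN N _).add (Eqn.sum _ fun S _ => ?_)
    exact (Eqn_trN N _).mul (Eqn.prod _ fun a _ => Eqn_trN N _)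
  have hcross : Gf (2 * B) (∑ S ∈ s.powerset.erase ∅,
      trN N (X S) * ∏ a ∈ s \ S, trN N (V a)) = 0 := by
    rw [Gf_sum]
    refine Finset.sum_eq_zero fun S hS => ?_
    rw [mem_erase, mem_powerset] at hS
    have h3 := (hX S hS.2 (nonempty_iff_ne_empty.2 hS.1)).wg
    have h4 := (Wg_prod (s \ S) (fun a => 2 * b a) (fun a => trN N (V a))
      fun a ha => (h1 a (mem_sdiff.1 ha).1).wg).1
    refine Gf_eq_zero (h3.mul h4) ?_
    have h5 : ∑ a ∈ s \ S, b a + ∑ a ∈ S, b a = ∑ a ∈ s, b a := Finset.sum_sdiff hS.2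
    rw [← Finset.mul_sum]
    omega
  have hc : (Gf (2 * B) T).coeff (B - k) = (Gf (2 * B) (∏ a ∈ s, trN N (V a) +
      ∑ S ∈ s.powerset.erase ∅, trN N (X S) * ∏ a ∈ s \ S, trN N (V a))).coeff (B - k) := by
    rw [coeff_Gf, coeff_Gf, if_pos (by omega), if_pos (by omega), hE _ (by omega)]
  rw [Gf_add, hcross, add_zero, hT0, Polynomial.coeff_X_pow, if_neg (by omega)] at hc
  exact hc.symm

variable {P : Type u} [Fintype P] [PartialOrder P] [DecidableEq P] {r i l : ℕ}

variable {ι : Type*} [DecidableEq ι] {κ : P → ι}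

/-- the polynomial of slope two of the part `C` up to the order six -/
noncomputable def FS (i : ℕ) (C : Finset P) : PowerSeries ℤ :=
  PowerSeries.mk fun k => if k ≤ 6 ∧ k ≤ (st i C).card then
    PowerSeries.coeff ((st i C).card - k) (ZC i C (2 * k) : A) else 0

lemma coeff_FS (C : Finset P) (k : ℕ) : PowerSeries.coeff k (FS i C) =
    if k ≤ 6 ∧ k ≤ (st i C).card then
      PowerSeries.coeff ((st i C).card - k) (ZC i C (2 * k) : A) else 0 := by
  unfold FS
  rw [PowerSeries.coeff_mk]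

/-- `FS` as a reflected form -/
lemma FS_eq (C : Finset P) : FS i C =
    ((Polynomial.reflect (st i C).card
      (Gf (2 * (st i C).card) (trN 12 (ZS i C))) : Polynomial ℤ) : PowerSeries ℤ) := by
  ext1 k
  rw [coeff_FS, Polynomial.coeff_coe, Polynomial.coeff_reflect]
  rcases Nat.lt_or_ge (st i C).card k with h | h
  · rw [if_neg (by omega), Polynomial.revAt_eq_self_of_lt h, coeff_Gf, if_neg (by omega)]
  · have hG : (Gf (2 * (st i C).card) (trN 12 (ZS i C))).coeff ((st i C).card - k) =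
        PowerSeries.coeff ((st i C).card - k) (if 2 * k ≤ 12 then ZC i C (2 * k) else 0 : A) := by
      rw [coeff_Gf, if_pos (by omega),
        show 2 * (st i C).card - 2 * ((st i C).card - k) = 2 * k by omega, coeff_trN, coeff_ZS]
    rw [Polynomial.revAt_le h, hG]
    by_cases h6 : k ≤ 6
    · rw [if_pos ⟨h6, h⟩, if_pos (by omega)]
    · rw [if_neg (fun h7 => h6 h7.1), if_neg (by omega)]
      exact (map_zero _).symm

/-- THE TRUNCATED PRODUCT FORMULA -/
theorem trunc_prod (H : Gr P r) (hir : i ≤ r) (hil : i ≤ l) (hκ : Split l κ)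
    (h1 : ∀ a ∈ univ.image κ, ∀ n, n ≤ 12 →
      dd ^ ((st i (cext l κ a)).card - n / 2) ∣ ZC i (cext l κ a) n)
    (h2 : ∀ S, S ⊆ univ.image κ → S.Nonempty → ∀ n, 1 ≤ n → n ≤ 12 →
      dd ^ ((st i (US l κ S)).card - (n - 1) / 2) ∣ XC i l κ S n) :
    ∀ k, 1 ≤ k → k ≤ 6 →
      PowerSeries.coeff k (∏ a ∈ univ.image κ, FS i (cext l κ a)) = 0 := by
  classical
  intro k hk hk6
  have key := trunc_arg 12 (univ.image κ) (fun a => (st i (cext l κ a)).card)
    (fun a => ZS i (cext l κ a)) (XS i l κ) (TS P i) ?_ ?_ ?_ (TS_eq H hir hil hκ) k hk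
    (by omega)
  · have h3 : ∏ a ∈ univ.image κ, FS i (cext l κ a) =
        ((∏ a ∈ univ.image κ, Polynomial.reflect (st i (cext l κ a)).card
          (Gf (2 * (st i (cext l κ a)).card) (trN 12 (ZS i (cext l κ a)))) : Polynomial ℤ) :
          PowerSeries ℤ) := by
      rw [← Polynomial.coeToPowerSeries.ringHom_apply, map_prod]
      refine Finset.prod_congr rfl fun a _ => ?_
      rw [Polynomial.coeToPowerSeries.ringHom_apply]
      exact FS_eq _
    rw [h3, Polynomial.coeff_coe]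
    exact key
  · intro a ha n m hn hnm
    rw [coeff_ZS]
    exact coeff_zero_of_dvd (h1 a ha n hn) (by omega)
  · intro S hS hne n m hn hnm
    rw [← card_st_US hil hκ S] at hnm
    unfold XS
    rw [PowerSeries.coeff_mk]
    rcases Nat.eq_zero_or_pos n with rfl | hn0
    · have h3 : XC i l κ S 0 = 0 := by
        unfold XC
        rw [Finset.piAntidiag_zero, Finset.filter_singleton, if_neg, Finset.sum_empty]
        rw [Tch_zero]
        exact hne.ne_empty.symm
      rw [h3, map_zero]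
    · exact coeff_zero_of_dvd (h2 S hS hne n hn0 hn) (by omega)
  · rw [sum_card_st hil hκ]
    exact TS_form H hir

lemma coeff_FS_zero (H : Gr P r) (hir : i ≤ r) (C : Finset P) :
    PowerSeries.coeff 0 (FS i C) = 1 := by
  rw [coeff_FS, if_pos (by omega), Nat.sub_zero, mul_zero, ZC_zero H hir]
  unfold dd
  rw [PowerSeries.coeff_X_pow, if_pos rfl]

/-- every component of a known kind is trivial -/
theorem no_K (H : Gr P r) (hir : i ≤ r) (hil : i ≤ l) (hκ : Split l κ)
    (h1 : ∀ a ∈ univ.image κ, ∀ n, n ≤ 12 →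
      dd ^ ((st i (cext l κ a)).card - n / 2) ∣ ZC i (cext l κ a) n)
    (h2 : ∀ S, S ⊆ univ.image κ → S.Nonempty → ∀ n, 1 ≤ n → n ≤ 12 →
      dd ^ ((st i (US l κ S)).card - (n - 1) / 2) ∣ XC i l κ S n)
    (hF : ∀ a ∈ univ.image κ, K2.Tr.Nt (FS i (cext l κ a)) ∨ K2.Tr.Ka (FS i (cext l κ a)) ∨
      K2.Tr.Kb (FS i (cext l κ a))) :
    ∀ a ∈ univ.image κ, ∀ k, 1 ≤ k → k ≤ 6 → PowerSeries.coeff k (FS i (cext l κ a)) = 0 :=
  K2.Tr.trunc_kill (univ.image κ) (fun a => FS i (cext l κ a))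
    (fun _ _ => coeff_FS_zero H hir _) (trunc_prod H hir hil hκ h1 h2) hF

/-- no component of the second or third kind -/
theorem not_Ka_Kb (H : Gr P r) (hir : i ≤ r) (hil : i ≤ l) (hκ : Split l κ)
    (h1 : ∀ a ∈ univ.image κ, ∀ n, n ≤ 12 →
      dd ^ ((st i (cext l κ a)).card - n / 2) ∣ ZC i (cext l κ a) n)
    (h2 : ∀ S, S ⊆ univ.image κ → S.Nonempty → ∀ n, 1 ≤ n → n ≤ 12 →
      dd ^ ((st i (US l κ S)).card - (n - 1) / 2) ∣ XC i l κ S n)
    (hF : ∀ a ∈ univ.image κ, K2.Tr.Nt (FS i (cext l κ a)) ∨ K2.Tr.Ka (FS i (cext l κ a)) ∨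
      K2.Tr.Kb (FS i (cext l κ a))) :
    ∀ a ∈ univ.image κ, ¬ K2.Tr.Ka (FS i (cext l κ a)) ∧ ¬ K2.Tr.Kb (FS i (cext l κ a)) := by
  intro a ha
  have h3 := no_K H hir hil hκ h1 h2 hF a ha
  refine ⟨fun h => ?_, fun h => ?_⟩
  · have h4 := h.1
    rw [h3 1 (by norm_num) (by norm_num)] at h4
    exact absurd h4 (by norm_num)
  · exact h.2.2.1 (h3 3 (by norm_num) (by norm_num))

end Pool.Agent.GaussPoset.Win.Tp
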