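import Pool.Agent.W_448tp_h44.TpA
import Pool.Agent.W_448w4_h10.NB

/-!
# The coefficient (5,3) of every component (MP_448cb3_co, case B)

If every component has order at most `(n + 1) / 2` up to the energy `10`, order at most `n / 2` up to
the energy `4`, and every cross series has grade at least `1` up to the energy `10`, then the
identities (5,3) and (10,6) give order at most `2` at the energy `5` for every component.
Also `no_K2`, `not_Ka2_Kb2`: the truncated product with the kinds `Ka2`, `Kb2`.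
-/

namespace Pool.Agent.GaussPoset.Win.Tp

set_option linter.unusedSectionVars false

open Finset I2 Ut

universe u

/-- the coefficient of energy `n` and degree `m` -/
noncomputable def cf (f : PowerSeries A) (n m : ℕ) : ℤ :=
  PowerSeries.coeff m (PowerSeries.coeff n f : A)

lemma cf_mul (f g : PowerSeries A) (n m : ℕ) : cf (f * g) n m =
    ∑ q ∈ antidiagonal m, ∑ p ∈ antidiagonal n, cf f p.1 q.1 * cf g p.2 q.2 :=
  coeff_coeff_mul f g n m

/-- the profile used for the coefficients (5,3) and (10,6) -/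
structure P5 (b : ℕ) (f : PowerSeries A) : Prop where
  z : ∀ m, cf f 0 m = if m = b then 1 else 0
  a : ∀ n m, n ≤ 4 → n + 2 * m < 2 * b → cf f n m = 0
  b9 : ∀ n m, n ≤ 9 → n + 2 * m + 1 < 2 * b → cf f n m = 0
  c : ∀ m, 12 + 2 * m < 2 * b → cf f 10 m = 0

/-- the coefficient (5,3) -/
noncomputable def w53 (b : ℕ) (f : PowerSeries A) : ℤ := if 3 ≤ b then cf f 5 (b - 3) else 0

/-- the coefficient (10,6) -/
noncomputable def w106 (b : ℕ) (f : PowerSeries A) : ℤ := if 6 ≤ b then cf f 10 (b - 6) else 0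

lemma term_zero {x y : ℤ} (h : x = 0 ∨ y = 0) : x * y = 0 := by
  rcases h with h | h
  · rw [h, zero_mul]
  · rw [h, mul_zero]

/-- a vanishing product sum -/
lemma cf_mul_zero {f g : PowerSeries A} {n m : ℕ}
    (h : ∀ p1 p2 q1 q2, p1 + p2 = n → q1 + q2 = m → cf f p1 q1 = 0 ∨ cf g p2 q2 = 0) :
    cf (f * g) n m = 0 := by
  rw [cf_mul]
  refine Finset.sum_eq_zero fun q hq => Finset.sum_eq_zero fun p hp => ?_
  rw [HasAntidiagonal.mem_antidiagonal] at hq hp
  exact term_zero (h _ _ _ _ hp hq)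

lemma P5.one : P5 0 (1 : PowerSeries A) where
  z := by
    intro m
    unfold cf
    rw [PowerSeries.coeff_zero_eq_constantCoeff, map_one, PowerSeries.coeff_one]
  a := fun n m _ h => absurd h (by omega)
  b9 := fun n m _ h => absurd h (by omega)
  c := fun m h => absurd h (by omega)

lemma P5.mul {b b' : ℕ} {f g : PowerSeries A} (hf : P5 b f) (hg : P5 b' g)
    (hg' : ∀ m, 11 + 2 * m < 2 * b' → cf g 10 m = 0) : P5 (b + b') (f * g) where
  z := by
    intro m
    rw [cf_mul]
    simp only [Finset.Nat.antidiagonal_zero, Finset.sum_singleton, hf.z, hg.z]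
    by_cases h : m = b + b'
    · rw [if_pos h, Finset.sum_eq_single_of_mem (b, b')]
      · simp
      · rw [HasAntidiagonal.mem_antidiagonal]
        exact h.symm
      · intro q hq hne
        rw [HasAntidiagonal.mem_antidiagonal] at hq
        by_cases h1 : q.1 = b
        · have h2 : q.2 ≠ b' := by
            intro h3
            exact hne (Prod.ext h1 h3)
          rw [if_neg h2, mul_zero]
        · rw [if_neg h1, zero_mul]
    · rw [if_neg h]
      refine Finset.sum_eq_zero fun q hq => ?_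
      rw [HasAntidiagonal.mem_antidiagonal] at hq
      by_cases h1 : q.1 = b
      · rw [if_neg (c := q.2 = b') (by omega), mul_zero]
      · rw [if_neg h1, zero_mul]
  a := by
    intro n m hn h
    refine cf_mul_zero fun p1 p2 q1 q2 hp hq => ?_
    by_cases h1 : p1 + 2 * q1 < 2 * b
    · exact Or.inl (hf.a _ _ (by omega) h1)
    · exact Or.inr (hg.a _ _ (by omega) (by omega))
  b9 := by
    intro n m hn h
    refine cf_mul_zero fun p1 p2 q1 q2 hp hq => ?_
    by_cases h1 : p1 + 2 * q1 + 1 < 2 * b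
    · exact Or.inl (hf.b9 _ _ (by omega) h1)
    by_cases h2 : p2 + 2 * q2 + 1 < 2 * b'
    · exact Or.inr (hg.b9 _ _ (by omega) h2)
    rcases Nat.lt_or_ge p1 5 with h3 | h3
    · by_cases h4 : p1 + 2 * q1 < 2 * b
      · exact Or.inl (hf.a _ _ (by omega) h4)
      · omega
    · by_cases h4 : p2 + 2 * q2 < 2 * b'
      · exact Or.inr (hg.a _ _ (by omega) h4)
      · omega
  c := by
    intro m h
    refine cf_mul_zero fun p1 p2 q1 q2 hp hq => ?_
    rcases Nat.lt_or_ge p1 10 with h3 | h3
    · by_cases h1 : p1 + 2 * q1 + 1 < 2 * b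
      · exact Or.inl (hf.b9 _ _ (by omega) h1)
      rcases Nat.lt_or_ge p2 10 with h4 | h4
      · exact Or.inr (hg.b9 _ _ (by omega) (by omega))
      · have h5 : p2 = 10 := by omega
        subst h5
        exact Or.inr (hg' _ (by omega))
    · have h5 : p1 = 10 := by omega
      subst h5
      by_cases h1 : 12 + 2 * q1 < 2 * b
      · exact Or.inl (hf.c _ h1)
      · have h6 : p2 = 0 := by omega
        subst h6
        right
        rw [hg.z, if_neg (by omega)]

/-- a sum over an antidiagonal with one term -/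
lemma sum_anti {m a b : ℕ} (h : a + b = m) {F : ℕ × ℕ → ℤ}
    (h0 : ∀ q : ℕ × ℕ, q.1 + q.2 = m → q.1 ≠ a → F q = 0) :
    ∑ q ∈ antidiagonal m, F q = F (a, b) := by
  rw [Finset.sum_eq_single_of_mem (a, b)]
  · rw [HasAntidiagonal.mem_antidiagonal]
    exact h
  · intro q hq hne
    rw [HasAntidiagonal.mem_antidiagonal] at hq
    refine h0 q hq fun h1 => hne ?_
    exact Prod.ext h1 (by show q.2 = b; omega)

/-- the coefficient (5,3) is additive -/
lemma w53_mul {b b' : ℕ} {f g : PowerSeries A} (hf : P5 b f) (hg : P5 b' g) :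
    w53 (b + b') (f * g) = w53 b f + w53 b' g := by
  unfold w53
  by_cases h : 3 ≤ b + b'
  · rw [if_pos h, cf_mul, Finset.sum_comm]
    have key : ∀ p ∈ antidiagonal 5, ∑ q ∈ antidiagonal (b + b' - 3),
        cf f p.1 q.1 * cf g p.2 q.2 =
        (if p.1 = 5 then (if 3 ≤ b then cf f 5 (b - 3) else 0) else 0) +
          (if p.1 = 0 then (if 3 ≤ b' then cf g 5 (b' - 3) else 0) else 0) := by
      intro p hp
      rw [HasAntidiagonal.mem_antidiagonal] at hp
      by_cases h5 : p.1 = 5
      · have h0 : p.2 = 0 := by omega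
        rw [if_pos h5, if_neg (c := p.1 = 0) (by omega), add_zero, h5, h0]
        by_cases hb : 3 ≤ b
        · rw [if_pos hb, sum_anti (a := b - 3) (b := b') (by omega)]
          · simp only [hg.z, if_true, mul_one]
          · intro q hq hne
            rw [hg.z, if_neg (by omega), mul_zero]
        · rw [if_neg hb]
          refine Finset.sum_eq_zero fun q hq => ?_
          rw [HasAntidiagonal.mem_antidiagonal] at hq
          rw [hg.z, if_neg (by omega), mul_zero]
      rw [if_neg h5, zero_add]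
      by_cases h0 : p.1 = 0
      · have h6 : p.2 = 5 := by omega
        rw [if_pos h0, h0, h6]
        by_cases hb : 3 ≤ b'
        · rw [if_pos hb, sum_anti (a := b) (b := b' - 3) (by omega)]
          · simp only [hf.z, if_true, one_mul]
          · intro q hq hne
            rw [hf.z, if_neg hne, zero_mul]
        · rw [if_neg hb]
          refine Finset.sum_eq_zero fun q hq => ?_
          rw [HasAntidiagonal.mem_antidiagonal] at hq
          rw [hf.z, if_neg (by omega), zero_mul]
      · rw [if_neg h0]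
        refine Finset.sum_eq_zero fun q hq => ?_
        rw [HasAntidiagonal.mem_antidiagonal] at hq
        apply term_zero
        by_cases h1 : p.1 + 2 * q.1 < 2 * b
        · exact Or.inl (hf.a _ _ (by omega) h1)
        · exact Or.inr (hg.a _ _ (by omega) (by omega))
    rw [Finset.sum_congr rfl key, Finset.sum_add_distrib]
    congr 1
    · rw [sum_anti (a := 5) (b := 0) (by omega)]
      · simp
      · intro q _ hne
        rw [if_neg hne]
    · rw [sum_anti (a := 0) (b := 5) (by omega)]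
      · simp
      · intro q _ hne
        rw [if_neg hne]
  · rw [if_neg h, if_neg (by omega), if_neg (by omega), add_zero]

/-- the coefficient (10,6) of a product -/
lemma w106_mul {b b' : ℕ} {f g : PowerSeries A} (hf : P5 b f) (hg : P5 b' g)
    (hg' : ∀ m, 11 + 2 * m < 2 * b' → cf g 10 m = 0) :
    w106 (b + b') (f * g) = w106 b f + w53 b f * w53 b' g := by
  unfold w106
  by_cases h : 6 ≤ b + b'
  · rw [if_pos h, cf_mul, Finset.sum_comm]
    have key : ∀ p ∈ antidiagonal 10, ∑ q ∈ antidiagonal (b + b' - 6),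
        cf f p.1 q.1 * cf g p.2 q.2 =
        (if p.1 = 10 then (if 6 ≤ b then cf f 10 (b - 6) else 0) else 0) +
          (if p.1 = 5 then w53 b f * w53 b' g else 0) := by
      intro p hp
      rw [HasAntidiagonal.mem_antidiagonal] at hp
      by_cases h5 : p.1 = 10
      · have h0 : p.2 = 0 := by omega
        rw [if_pos h5, if_neg (c := p.1 = 5) (by omega), add_zero, h5, h0]
        by_cases hb : 6 ≤ b
        · rw [if_pos hb, sum_anti (a := b - 6) (b := b') (by omega)]
          · simp only [hg.z, if_true, mul_one]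
          · intro q hq hne
            rw [hg.z, if_neg (by omega), mul_zero]
        · rw [if_neg hb]
          refine Finset.sum_eq_zero fun q hq => ?_
          rw [HasAntidiagonal.mem_antidiagonal] at hq
          rw [hg.z, if_neg (by omega), mul_zero]
      rw [if_neg h5, zero_add]
      by_cases h0 : p.1 = 5
      · have h6 : p.2 = 5 := by omega
        rw [if_pos h0, h0, h6]
        unfold w53
        by_cases hb : 3 ≤ b ∧ 3 ≤ b'
        · rw [if_pos hb.1, if_pos hb.2, sum_anti (a := b - 3) (b := b' - 3) (by omega)]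
          intro q hq hne
          apply term_zero
          by_cases h1 : 5 + 2 * q.1 + 1 < 2 * b
          · exact Or.inl (hf.b9 _ _ (by omega) h1)
          · exact Or.inr (hg.b9 _ _ (by omega) (by omega))
        · have h7 : (if 3 ≤ b then cf f 5 (b - 3) else 0) *
              (if 3 ≤ b' then cf g 5 (b' - 3) else 0) = 0 := by
            apply term_zero
            rcases not_and_or.1 hb with h8 | h8
            · exact Or.inl (if_neg h8)
            · exact Or.inr (if_neg h8)
          rw [h7]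
          refine Finset.sum_eq_zero fun q hq => ?_
          rw [HasAntidiagonal.mem_antidiagonal] at hq
          apply term_zero
          by_cases h1 : 5 + 2 * q.1 + 1 < 2 * b
          · exact Or.inl (hf.b9 _ _ (by omega) h1)
          · exact Or.inr (hg.b9 _ _ (by omega) (by omega))
      · rw [if_neg h0]
        refine Finset.sum_eq_zero fun q hq => ?_
        rw [HasAntidiagonal.mem_antidiagonal] at hq
        apply term_zero
        rcases Nat.lt_or_ge p.1 5 with h3 | h3
        · by_cases h1 : p.1 + 2 * q.1 < 2 * b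
          · exact Or.inl (hf.a _ _ (by omega) h1)
          · right
            rcases Nat.lt_or_ge p.2 10 with h4 | h4
            · exact hg.b9 _ _ (by omega) (by omega)
            · have h9 : p.2 = 10 := by omega
              rw [h9]
              exact hg' _ (by omega)
        · by_cases h1 : p.1 + 2 * q.1 + 1 < 2 * b
          · exact Or.inl (hf.b9 _ _ (by omega) h1)
          · exact Or.inr (hg.a _ _ (by omega) (by omega))
    rw [Finset.sum_congr rfl key, Finset.sum_add_distrib]
    congr 1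
    · rw [sum_anti (a := 10) (b := 0) (by omega)]
      · simp
      · intro q _ hne
        rw [if_neg hne]
    · rw [sum_anti (a := 5) (b := 5) (by omega)]
      · simp
      · intro q _ hne
        rw [if_neg hne]
  · rw [if_neg h, if_neg (by omega), zero_add]
    unfold w53
    by_cases hb : 3 ≤ b
    · rw [if_neg (c := 3 ≤ b') (by omega), mul_zero]
    · rw [if_neg hb, zero_mul]

/-- the product of all components -/
theorem P5_prod {ι : Type*} (s : Finset ι) (b : ι → ℕ) (f : ι → PowerSeries A)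
    (h : ∀ a ∈ s, P5 (b a) (f a))
    (h' : ∀ a ∈ s, ∀ m, 11 + 2 * m < 2 * b a → cf (f a) 10 m = 0) :
    P5 (∑ a ∈ s, b a) (∏ a ∈ s, f a) ∧
      w53 (∑ a ∈ s, b a) (∏ a ∈ s, f a) = ∑ a ∈ s, w53 (b a) (f a) ∧
      2 * w106 (∑ a ∈ s, b a) (∏ a ∈ s, f a) =
        (∑ a ∈ s, w53 (b a) (f a)) ^ 2 - ∑ a ∈ s, w53 (b a) (f a) ^ 2 := by
  classical
  induction s using Finset.induction_on with
  | empty =>
    refine ⟨by rw [sum_empty, prod_empty]; exact P5.one, ?_, ?_⟩
    · rw [sum_empty, sum_empty]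
      unfold w53
      rw [if_neg (by omega)]
    · rw [sum_empty, sum_empty, sum_empty]
      unfold w106
      rw [if_neg (by omega)]
      norm_num
  | insert a s ha ih =>
    obtain ⟨i1, i2, i3⟩ := ih (fun x hx => h x (mem_insert_of_mem hx))
      (fun x hx => h' x (mem_insert_of_mem hx))
    have g := h a (mem_insert_self _ _)
    have g' := h' a (mem_insert_self _ _)
    rw [sum_insert ha, prod_insert ha, sum_insert ha, sum_insert ha, add_comm (b a),
      mul_comm (f a)]
    refine ⟨i1.mul g g', ?_, ?_⟩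
    · rw [w53_mul i1 g, i2]
      ring
    · rw [w106_mul i1 g g', mul_add, i3, i2]
      ring

/-- abstract form of the conclusion -/
theorem w53_arg {ι : Type*} [DecidableEq ι] (s : Finset ι) (b : ι → ℕ)
    (V : ι → PowerSeries A) (X : Finset ι → PowerSeries A) (T : PowerSeries A)
    (h : ∀ a ∈ s, P5 (b a) (V a))
    (h' : ∀ a ∈ s, ∀ m, 11 + 2 * m < 2 * b a → cf (V a) 10 m = 0)
    (hX0 : ∀ S, S ⊆ s → S.Nonempty → ∀ m, cf (X S) 0 m = 0)
    (hX : ∀ S, S ⊆ s → S.Nonempty → Wn 10 (2 * ∑ a ∈ S, b a + 1) (X S))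
    (hT : Wg (2 * ∑ a ∈ s, b a) T)
    (hsum : T = ∏ a ∈ s, V a + ∑ S ∈ s.powerset.erase ∅, X S * ∏ a ∈ s \ S, V a) :
    ∀ a ∈ s, w53 (b a) (V a) = 0 := by
  classical
  obtain ⟨p1, p2, p3⟩ := P5_prod s b V h h'
  have hcross : ∀ n m, (n = 5 ∨ n = 10) → n + 2 * m < 2 * ∑ a ∈ s, b a →
      cf (∑ S ∈ s.powerset.erase ∅, X S * ∏ a ∈ s \ S, V a) n m = 0 := by
    intro n m hn hnm
    unfold cf
    rw [map_sum, map_sum]
    refine Finset.sum_eq_zero fun S hS => ?_
    rw [mem_erase, mem_powerset] at hS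
    have hne := nonempty_iff_ne_empty.2 hS.1
    have h3 := hX S hS.2 hne
    have h4 := hX0 S hS.2 hne
    obtain ⟨q1, -, -⟩ := P5_prod (s \ S) b V (fun a ha => h a (mem_sdiff.1 ha).1)
      (fun a ha => h' a (mem_sdiff.1 ha).1)
    have h5 : ∑ a ∈ s \ S, b a + ∑ a ∈ S, b a = ∑ a ∈ s, b a := Finset.sum_sdiff hS.2
    set B1 := ∑ a ∈ s \ S, b a
    set B2 := ∑ a ∈ S, b a
    refine cf_mul_zero (f := X S) (g := ∏ a ∈ s \ S, V a) fun p p' q q' hp hq => ?_
    rcases Nat.eq_zero_or_pos p with h6 | h6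
    · left
      rw [h6]
      exact h4 q
    by_cases h7 : p + 2 * q < 2 * B2 + 1
    · exact Or.inl (h3 p q (by omega) h7)
    · exact Or.inr (q1.b9 p' q' (by omega) (by omega))
  have hz : ∀ n m, (n = 5 ∨ n = 10) → n + 2 * m < 2 * ∑ a ∈ s, b a →
      cf (∏ a ∈ s, V a) n m = 0 := by
    intro n m hn hnm
    have h1 : cf T n m = 0 := hT n m hnm
    rw [hsum] at h1
    have h2 := hcross n m hn hnm
    unfold cf at h1 h2 ⊢
    rw [map_add, map_add, h2, add_zero] at h1
    exact h1
  have e1 : w53 (∑ a ∈ s, b a) (∏ a ∈ s, V a) = 0 := by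
    unfold w53
    split_ifs with h3
    · exact hz 5 _ (Or.inl rfl) (by omega)
    · rfl
  have e2 : w106 (∑ a ∈ s, b a) (∏ a ∈ s, V a) = 0 := by
    unfold w106
    split_ifs with h3
    · exact hz 10 _ (Or.inr rfl) (by omega)
    · rfl
  rw [p2] at e1
  rw [e2, e1] at p3
  have e3 : ∑ a ∈ s, w53 (b a) (V a) ^ 2 = 0 := by linarith
  intro a ha
  have e4 := (Finset.sum_eq_zero_iff_of_nonneg fun x _ => sq_nonneg (w53 (b x) (V x))).1 e3 a ha
  exact (pow_eq_zero_iff (two_ne_zero)).1 e4

variable {P : Type u} [Fintype P] [PartialOrder P] [DecidableEq P] {r i l : ℕ}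

variable {ι : Type*} [DecidableEq ι] {κ : P → ι}

lemma XS_zero (S : Finset ι) (hne : S.Nonempty) (m : ℕ) : cf (XS i l κ S) 0 m = 0 := by
  classical
  unfold cf XS
  rw [PowerSeries.coeff_mk]
  have h3 : XC i l κ S 0 = 0 := by
    unfold XC
    rw [Finset.piAntidiag_zero, Finset.filter_singleton, if_neg, Finset.sum_empty]
    rw [Tch_zero]
    exact hne.ne_empty.symm
  rw [h3, map_zero]

/-- THE ORDER AT THE ENERGY FIVE -/
theorem five (H : Gr P r) (hir : i ≤ r) (hil : i ≤ l) (hκ : Split l κ)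
    (h4 : ∀ a ∈ univ.image κ, ∀ n, n ≤ 4 →
      dd ^ ((st i (cext l κ a)).card - n / 2) ∣ ZC i (cext l κ a) n)
    (h1 : ∀ a ∈ univ.image κ, ∀ n, n ≤ 10 →
      dd ^ ((st i (cext l κ a)).card - (n + 1) / 2) ∣ ZC i (cext l κ a) n)
    (h2 : ∀ S, S ⊆ univ.image κ → S.Nonempty → ∀ n, 1 ≤ n → n ≤ 10 →
      dd ^ ((st i (US l κ S)).card - (n - 1) / 2) ∣ XC i l κ S n) :
    ∀ a ∈ univ.image κ, dd ^ ((st i (cext l κ a)).card - 2) ∣ ZC i (cext l κ a) 5 := by
  classical
  have hz : ∀ a n m, cf (ZS i (cext l κ a)) n m = PowerSeries.coeff m (ZC i (cext l κ a) n) := by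
    intro a n m
    unfold cf
    rw [coeff_ZS]
  have key := w53_arg (univ.image κ) (fun a => (st i (cext l κ a)).card)
    (fun a => ZS i (cext l κ a)) (XS i l κ) (TS P i) ?_ ?_ ?_ ?_ ?_ (TS_eq H hir hil hκ)
  · intro a ha
    have h5 := key a ha
    unfold w53 at h5
    apply dvd_of_coeff
    intro m hm
    rcases Nat.lt_or_ge m ((st i (cext l κ a)).card - 3) with h6 | h6
    · exact coeff_zero_of_dvd (h1 a ha 5 (by norm_num)) (by omega)
    · have h7 : m = (st i (cext l κ a)).card - 3 := by omega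
      rw [if_pos (by omega), hz] at h5
      rw [h7]
      exact h5
  · intro a ha
    refine ⟨?_, ?_, ?_, ?_⟩
    · intro m
      rw [hz, ZC_zero H hir]
      unfold dd
      rw [PowerSeries.coeff_X_pow]
    · intro n m hn hnm
      rw [hz]
      exact coeff_zero_of_dvd (h4 a ha n hn) (by omega)
    · intro n m hn hnm
      rw [hz]
      exact coeff_zero_of_dvd (h1 a ha n (by omega)) (by omega)
    · intro m hm
      rw [hz]
      exact coeff_zero_of_dvd (h1 a ha 10 le_rfl) (by omega)
  · intro a ha m hm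
    rw [hz]
    exact coeff_zero_of_dvd (h1 a ha 10 le_rfl) (by omega)
  · intro S _ hne m
    exact XS_zero S hne m
  · intro S hS hne n m hn hnm
    rw [← card_st_US hil hκ S] at hnm
    rcases Nat.eq_zero_or_pos n with rfl | hn0
    · exact XS_zero S hne m
    · unfold XS
      rw [PowerSeries.coeff_mk]
      exact coeff_zero_of_dvd (h2 S hS hne n hn0 hn) (by omega)
  · rw [sum_card_st hil hκ]
    exact TS_wg H hir

/-- THE TRUNCATED PRODUCT with the second kinds: everything is trivial -/
theorem no_K2 (H : Gr P r) (hir : i ≤ r) (hil : i ≤ l) (hκ : Split l κ)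
    (h1 : ∀ a ∈ univ.image κ, ∀ n, n ≤ 12 →
      dd ^ ((st i (cext l κ a)).card - n / 2) ∣ ZC i (cext l κ a) n)
    (h2 : ∀ S, S ⊆ univ.image κ → S.Nonempty → ∀ n, 1 ≤ n → n ≤ 12 →
      dd ^ ((st i (US l κ S)).card - (n - 1) / 2) ∣ XC i l κ S n)
    (hF : ∀ a ∈ univ.image κ, K2.Tr.Nt (FS i (cext l κ a)) ∨ K2.Tr.Ka2 (FS i (cext l κ a)) ∨
      K2.Tr.Kb2 (FS i (cext l κ a))) :
    ∀ a ∈ univ.image κ, (∀ k, 1 ≤ k → k ≤ 6 → PowerSeries.coeff k (FS i (cext l κ a)) = 0) ∧
      K2.Tr.Nt (FS i (cext l κ a)) :=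
  K2.Tr.trunc_kill2 (univ.image κ) (fun a => FS i (cext l κ a))
    (fun _ _ => coeff_FS_zero H hir _) (trunc_prod H hir hil hκ h1 h2) hF

/-- no component of the kinds `Ka2`, `Kb2` -/
theorem not_Ka2_Kb2 (H : Gr P r) (hir : i ≤ r) (hil : i ≤ l) (hκ : Split l κ)
    (h1 : ∀ a ∈ univ.image κ, ∀ n, n ≤ 12 →
      dd ^ ((st i (cext l κ a)).card - n / 2) ∣ ZC i (cext l κ a) n)
    (h2 : ∀ S, S ⊆ univ.image κ → S.Nonempty → ∀ n, 1 ≤ n → n ≤ 12 →
      dd ^ ((st i (US l κ S)).card - (n - 1) / 2) ∣ XC i l κ S n)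
    (hF : ∀ a ∈ univ.image κ, K2.Tr.Nt (FS i (cext l κ a)) ∨ K2.Tr.Ka2 (FS i (cext l κ a)) ∨
      K2.Tr.Kb2 (FS i (cext l κ a))) :
    ∀ a ∈ univ.image κ, ¬ K2.Tr.Ka2 (FS i (cext l κ a)) ∧ ¬ K2.Tr.Kb2 (FS i (cext l κ a)) := by
  intro a ha
  obtain ⟨h3, -⟩ := no_K2 H hir hil hκ h1 h2 hF a ha
  have e1 := h3 1 (by norm_num) (by norm_num)
  have e3 := h3 3 (by norm_num) (by norm_num)
  have e4 := h3 4 (by norm_num) (by norm_num)
  refine ⟨fun h => ?_, fun h => ?_⟩
  · have h5 := h.1.1
    rw [e1] at h5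
    exact absurd h5 (by norm_num)
  · rcases h.2.2.2.2 with h5 | h5
    · exact h5 e3
    · rw [e4] at h5
      exact absurd h5 (lt_irrefl _)

end Pool.Agent.GaussPoset.Win.Tp
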